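import Mathlib

/-!
# Eulerian posets agreeing with a polytope-like lattice outside one rank: abstract part
-/

set_option autoImplicit false

namespace Pool.Agent.Q223.EU

open Finset
open scoped Classical

/-- the properties of face lattices of polytopes that are used -/
structure PolyLike (L : Type) [PartialOrder L] (rk : L → ℕ) : Prop where
  mono : ∀ a b, a < b → rk a < rk b
  up : ∀ a b, a < b → ∃ c, a < c ∧ c ≤ b ∧ rk c = rk a + 1
  down : ∀ a b, a < b → ∃ c, a ≤ c ∧ c < b ∧ rk c + 1 = rk b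
  meet : ∀ a b : L, ∃ m, m ≤ a ∧ m ≤ b ∧ ∀ x, x ≤ a → x ≤ b → x ≤ m
  diamond : ∀ a b c, a < c → c < b → rk b = rk a + 2 → ∃! c', (a < c' ∧ c' < b) ∧ c' ≠ c
  conn : ∀ a b, a < b → rk a + 2 ≤ rk b → ∀ C : Set L, (∃ c ∈ C, a < c ∧ c ≤ b ∧ rk c = rk a + 1) →
    (∀ c c' w, c ∈ C → a < c → a < c' → rk c = rk a + 1 → rk c' = rk a + 1 → c < w → c' < w →
      w ≤ b → rk w = rk a + 2 → c' ∈ C) → ∀ c, a < c → c ≤ b → rk c = rk a + 1 → c ∈ C
  three : ∀ a b, a < b → rk b = rk a + 3 → ∃ c1 c2 c3 : L, c1 ≠ c2 ∧ c1 ≠ c3 ∧ c2 ≠ c3 ∧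
    (a < c1 ∧ c1 < b ∧ rk c1 = rk a + 1) ∧ (a < c2 ∧ c2 < b ∧ rk c2 = rk a + 1) ∧
    (a < c3 ∧ c3 < b ∧ rk c3 = rk a + 1)

/-- Eulerian posets -/
structure Eul (Q : Type) [PartialOrder Q] [Fintype Q] (ρ : Q → ℕ) : Prop where
  cov : ∀ x y, x ⋖ y → ρ y = ρ x + 1
  euler : ∀ x y : Q, x < y → (univ.filter fun z => x ≤ z ∧ z ≤ y ∧ Even (ρ z)).card =
    (univ.filter fun z => x ≤ z ∧ z ≤ y ∧ Odd (ρ z)).card

section L

variable {L : Type} [PartialOrder L] {rk : L → ℕ}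

theorem PolyLike.mono_le (h : PolyLike L rk) {a b : L} (hab : a ≤ b) : rk a ≤ rk b := by
  rcases hab.eq_or_lt with rfl | h'
  · exact le_rfl
  · exact (h.mono a b h').le

theorem PolyLike.eq_of_le (h : PolyLike L rk) {a b : L} (hab : a ≤ b) (hr : rk b ≤ rk a) :
    a = b := by
  rcases hab.eq_or_lt with h' | h'
  · exact h'
  · exact absurd (h.mono a b h') (by omega)

/-- connectivity of the coatoms of an interval -/
theorem PolyLike.dconn (h : PolyLike L rk) (n : ℕ) : ∀ a b : L, a < b → rk b = rk a + n + 2 →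
    ∀ C : Set L, (∃ c ∈ C, a ≤ c ∧ c < b ∧ rk c + 1 = rk b) →
    (∀ c c' w, c ∈ C → c < b → c' < b → rk c + 1 = rk b → rk c' + 1 = rk b → w < c → w < c' →
      a ≤ w → rk w + 2 = rk b → c' ∈ C) → ∀ c, a ≤ c → c < b → rk c + 1 = rk b → c ∈ C := by
  induction n with
  | zero =>
    intro a b hab hr C hC hcl c hac hcb hrc
    obtain ⟨c0, hc0, hac0, hc0b, hrc0⟩ := hC
    have h1 : a < c := lt_of_le_of_ne hac (by rintro rfl; omega)
    have h2 : a < c0 := lt_of_le_of_ne hac0 (by rintro rfl; omega)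
    exact hcl c0 c a hc0 hc0b hcb hrc0 hrc h2 h1 le_rfl (by omega)
  | succ n ih =>
    intro a b hab hr C hC hcl
    -- atoms all of whose coatoms are in `C`
    have key : ∀ u, a < u → u < b → rk u = rk a + 1 → (∃ c ∈ C, u ≤ c ∧ c < b ∧ rk c + 1 = rk b) →
        ∀ c, u ≤ c → c < b → rk c + 1 = rk b → c ∈ C := by
      intro u hau hub hru hex
      apply ih u b hub (by omega) C hex
      intro c c' w hc hcb hcb' hrc hrc' hwc hwc' huw hrw
      exact hcl c c' w hc hcb hcb' hrc hrc' hwc hwc' (hau.le.trans huw) hrw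
    have hall := h.conn a b hab (by omega)
      {u | ∀ c, u ≤ c → c < b → rk c + 1 = rk b → c ∈ C}
      (by
        obtain ⟨c0, hc0, hac0, hc0b, hrc0⟩ := hC
        have h1 : a < c0 := lt_of_le_of_ne hac0 (by rintro rfl; omega)
        obtain ⟨u, hau, huc, hru⟩ := h.up a c0 h1
        have hub : u < b := lt_of_le_of_lt huc hc0b
        exact ⟨u, key u hau hub hru ⟨c0, hc0, huc, hc0b, hrc0⟩, hau, hub.le, hru⟩)
      (by
        intro u u' w hu hau hau' hru hru' huw huw' hwb hrw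
        have hwb' : w < b := lt_of_le_of_ne hwb (by rintro rfl; omega)
        obtain ⟨c, hwc, hcb, hrc⟩ := h.down w b hwb'
        have hc : c ∈ C := hu c (huw.le.trans hwc) hcb hrc
        exact key u' hau' (huw'.trans hwb') hru' ⟨c, hc, huw'.le.trans hwc, hcb, hrc⟩)
    intro c hac hcb hrc
    have h1 : a < c := lt_of_le_of_ne hac (by rintro rfl; omega)
    obtain ⟨u, hau, huc, hru⟩ := h.up a c h1
    exact hall u hau (huc.trans hcb.le) hru c huc hcb hrc

end L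

section Q

variable {Q : Type} [PartialOrder Q] [Fintype Q] {ρ : Q → ℕ}

theorem Eul.mono (h : Eul Q ρ) {x y : Q} (hxy : x < y) : ρ x < ρ y := by
  induction' hn : (univ.filter fun z => x < z ∧ z < y).card using Nat.strong_induction_on with n ih
    generalizing x y
  by_cases hc : x ⋖ y
  · rw [h.cov x y hc]; exact Nat.lt_succ_self _
  · obtain ⟨z, hxz, hzy⟩ := exists_lt_lt_of_not_covBy hxy hc
    have h1 : (univ.filter fun w => x < w ∧ w < z).card < n := by
      rw [← hn]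
      apply card_lt_card
      refine ⟨fun w hw => ?_, fun hsub => ?_⟩
      · rw [mem_filter] at hw ⊢
        exact ⟨mem_univ _, hw.2.1, hw.2.2.trans hzy⟩
      · have := hsub (by rw [mem_filter]; exact ⟨mem_univ _, hxz, hzy⟩)
        rw [mem_filter] at this
        exact lt_irrefl _ this.2.2
    have h2 : (univ.filter fun w => z < w ∧ w < y).card < n := by
      rw [← hn]
      apply card_lt_card
      refine ⟨fun w hw => ?_, fun hsub => ?_⟩
      · rw [mem_filter] at hw ⊢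
        exact ⟨mem_univ _, hxz.trans hw.2.1, hw.2.2⟩
      · have := hsub (by rw [mem_filter]; exact ⟨mem_univ _, hxz, hzy⟩)
        rw [mem_filter] at this
        exact lt_irrefl _ this.2.1
    exact (ih _ h1 hxz rfl).trans (ih _ h2 hzy rfl)

theorem Eul.mono_le (h : Eul Q ρ) {x y : Q} (hxy : x ≤ y) : ρ x ≤ ρ y := by
  rcases hxy.eq_or_lt with rfl | h'
  · exact le_rfl
  · exact (h.mono h').le

theorem Eul.up (h : Eul Q ρ) {x y : Q} (hxy : x < y) : ∃ c, x < c ∧ c ≤ y ∧ ρ c = ρ x + 1 := by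
  obtain ⟨c, hc, hcy⟩ := exists_covBy_le_of_lt hxy
  exact ⟨c, hc.lt, hcy, h.cov x c hc⟩

theorem Eul.down (h : Eul Q ρ) {x y : Q} (hxy : x < y) : ∃ c, x ≤ c ∧ c < y ∧ ρ c + 1 = ρ y := by
  obtain ⟨c, hxc, hc⟩ := exists_le_covBy_of_lt hxy
  exact ⟨c, hxc, hc.lt, (h.cov c y hc).symm⟩

/-- number of elements of relative rank `k` in an interval -/
noncomputable def cnt (ρ : Q → ℕ) (x y : Q) (k : ℕ) : ℕ :=
  (univ.filter fun z => x ≤ z ∧ z ≤ y ∧ ρ z = ρ x + k).card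

theorem Eul.alt (h : Eul Q ρ) {x y : Q} (hxy : x < y) {n : ℕ} (hn : ρ y = ρ x + n) :
    ∑ k ∈ range (n + 1), (-1 : ℤ) ^ k * cnt ρ x y k = 0 := by
  have h1 : ∑ z ∈ univ.filter (fun z => x ≤ z ∧ z ≤ y), (-1 : ℤ) ^ (ρ z) = 0 := by
    have e := h.euler x y hxy
    have h2 : ∑ z ∈ univ.filter (fun z => x ≤ z ∧ z ≤ y), (-1 : ℤ) ^ (ρ z) =
        ((univ.filter fun z => x ≤ z ∧ z ≤ y ∧ Even (ρ z)).card : ℤ) -
          (univ.filter fun z => x ≤ z ∧ z ≤ y ∧ Odd (ρ z)).card := by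
      rw [← sum_filter_add_sum_filter_not _ (fun z => Even (ρ z)), filter_filter, filter_filter]
      have e1 : ∑ z ∈ univ.filter (fun z => (x ≤ z ∧ z ≤ y) ∧ Even (ρ z)), (-1 : ℤ) ^ (ρ z) =
          ((univ.filter fun z => x ≤ z ∧ z ≤ y ∧ Even (ρ z)).card : ℤ) := by
        rw [sum_congr rfl (g := fun _ => (1 : ℤ))]
        · simp only [and_assoc]; simp
        · intro z hz
          rw [mem_filter] at hz
          exact Even.neg_one_pow hz.2.2
      have e2 : ∑ z ∈ univ.filter (fun z => (x ≤ z ∧ z ≤ y) ∧ ¬ Even (ρ z)), (-1 : ℤ) ^ (ρ z) =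
          -((univ.filter fun z => x ≤ z ∧ z ≤ y ∧ Odd (ρ z)).card : ℤ) := by
        rw [sum_congr rfl (g := fun _ => (-1 : ℤ))]
        · simp only [and_assoc, Nat.not_even_iff_odd]; simp
        · intro z hz
          rw [mem_filter] at hz
          exact Odd.neg_one_pow (Nat.not_even_iff_odd.1 hz.2.2)
      rw [e1, e2]; ring
    rw [h2, e]; ring
  have h3 : ∑ k ∈ range (n + 1), ∑ z ∈ (univ.filter (fun z => x ≤ z ∧ z ≤ y)).filter
      (fun z => ρ z - ρ x = k), (-1 : ℤ) ^ (ρ z) = 0 := by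
    rw [sum_fiberwise_of_maps_to]
    · exact h1
    · intro z hz
      rw [mem_filter] at hz
      have := h.mono_le hz.2.2
      rw [mem_range]
      omega
  have h4 : ∀ k ∈ range (n + 1), ∑ z ∈ (univ.filter (fun z => x ≤ z ∧ z ≤ y)).filter
      (fun z => ρ z - ρ x = k), (-1 : ℤ) ^ (ρ z) = (-1) ^ (ρ x) * ((-1 : ℤ) ^ k * cnt ρ x y k) := by
    intro k _
    have e1 : (univ.filter (fun z => x ≤ z ∧ z ≤ y)).filter (fun z => ρ z - ρ x = k) =
        univ.filter fun z => x ≤ z ∧ z ≤ y ∧ ρ z = ρ x + k := by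
      rw [filter_filter]
      apply filter_congr
      intro z _
      constructor
      · rintro ⟨⟨h5, h6⟩, h7⟩
        have := h.mono_le h5
        exact ⟨h5, h6, by omega⟩
      · rintro ⟨h5, h6, h7⟩
        exact ⟨⟨h5, h6⟩, by omega⟩
    rw [e1, sum_congr rfl (g := fun _ => (-1 : ℤ) ^ (ρ x) * (-1) ^ k)]
    · rw [sum_const, nsmul_eq_mul, cnt]; ring
    · intro z hz
      rw [mem_filter] at hz
      rw [hz.2.2.2, pow_add]
  rw [sum_congr rfl h4, ← mul_sum] at h3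
  rcases mul_eq_zero.1 h3 with h5 | h5
  · exact absurd h5 (pow_ne_zero _ (by norm_num))
  · exact h5

theorem Eul.cnt_zero (h : Eul Q ρ) {x y : Q} (hxy : x ≤ y) : cnt ρ x y 0 = 1 := by
  unfold cnt
  rw [card_eq_one]
  refine ⟨x, ?_⟩
  ext z
  rw [mem_filter, mem_singleton]
  constructor
  · rintro ⟨-, h1, -, h3⟩
    rcases h1.eq_or_lt with h4 | h4
    · exact h4.symm
    · have := h.mono h4; omega
  · rintro rfl
    exact ⟨mem_univ _, le_rfl, hxy, rfl⟩

theorem Eul.cnt_top (h : Eul Q ρ) {x y : Q} (hxy : x ≤ y) {n : ℕ} (hn : ρ y = ρ x + n) :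
    cnt ρ x y n = 1 := by
  unfold cnt
  rw [card_eq_one]
  refine ⟨y, ?_⟩
  ext z
  rw [mem_filter, mem_singleton]
  constructor
  · rintro ⟨-, -, h2, h3⟩
    rcases h2.eq_or_lt with h4 | h4
    · exact h4
    · have := h.mono h4; omega
  · rintro rfl
    exact ⟨mem_univ _, hxy, le_rfl, hn⟩

theorem Eul.two (h : Eul Q ρ) {x y : Q} (hxy : x < y) (hn : ρ y = ρ x + 2) : cnt ρ x y 1 = 2 := by
  have h1 := h.alt hxy hn
  have h0 := h.cnt_zero hxy.le
  have h2 := h.cnt_top hxy.le hn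
  simp only [sum_range_succ, sum_range_zero, h0, h2] at h1
  norm_num at h1
  omega

theorem Eul.three (h : Eul Q ρ) {x y : Q} (hxy : x < y) (hn : ρ y = ρ x + 3) :
    cnt ρ x y 1 = cnt ρ x y 2 := by
  have h1 := h.alt hxy hn
  have h0 := h.cnt_zero hxy.le
  have h2 := h.cnt_top hxy.le hn
  simp only [sum_range_succ, sum_range_zero, h0, h2] at h1
  norm_num at h1
  omega

theorem Eul.four (h : Eul Q ρ) {x y : Q} (hxy : x < y) (hn : ρ y = ρ x + 4) :
    cnt ρ x y 2 + 2 = cnt ρ x y 1 + cnt ρ x y 3 := by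
  have h1 := h.alt hxy hn
  have h0 := h.cnt_zero hxy.le
  have h2 := h.cnt_top hxy.le hn
  simp only [sum_range_succ, sum_range_zero, h0, h2] at h1
  norm_num at h1
  omega

/-- diamonds -/
theorem Eul.diamond (h : Eul Q ρ) {x y c : Q} (hxc : x < c) (hcy : c < y) (hn : ρ y = ρ x + 2) :
    ∃! c', (x < c' ∧ c' < y) ∧ c' ≠ c := by
  have h2 := h.two (hxc.trans hcy) hn
  unfold cnt at h2
  obtain ⟨a, b, hab, he⟩ := card_eq_two.1 h2
  have hmem : ∀ z, (x < z ∧ z < y) ↔ z = a ∨ z = b := by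
    intro z
    have h3 : z ∈ (univ.filter fun z => x ≤ z ∧ z ≤ y ∧ ρ z = ρ x + 1) ↔ z = a ∨ z = b := by
      rw [he]; simp
    rw [← h3, mem_filter]
    constructor
    · rintro ⟨h4, h5⟩
      have := h.mono h4
      have := h.mono h5
      exact ⟨mem_univ _, h4.le, h5.le, by omega⟩
    · rintro ⟨-, h4, h5, h6⟩
      exact ⟨lt_of_le_of_ne h4 (by rintro rfl; omega), lt_of_le_of_ne h5 (by rintro rfl; omega)⟩
  rcases (hmem c).1 ⟨hxc, hcy⟩ with hc | hc
  · refine ⟨b, ⟨(hmem b).2 (Or.inr rfl), fun h => hab (hc.symm.trans h.symm)⟩, ?_⟩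
    rintro z ⟨hz, hzc⟩
    rcases (hmem z).1 hz with h4 | h4
    · exact absurd (h4.trans hc.symm) hzc
    · exact h4
  · refine ⟨a, ⟨(hmem a).2 (Or.inl rfl), fun h => hab (h.trans hc)⟩, ?_⟩
    rintro z ⟨hz, hzc⟩
    rcases (hmem z).1 hz with h4 | h4
    · exact h4
    · exact absurd (h4.trans hc.symm) hzc

end Q

end Pool.Agent.Q223.EU
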