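import Mathlib
import Pool.Agent.Q223.EU.Abs
import Pool.Agent.H242R3.ES.StmtsG
import Pool.Agent.H603R3.ES_G1
import Pool.Agent.H856R3.ESG2
import Pool.Agent.H78R3.ES.G3
import Pool.Agent.H925R.ES.G4
import Pool.Agent.H769R3.ES.G5

/-!
# Face lattices of cones are polytope-like
-/

set_option autoImplicit false

namespace Pool.Agent.Q223.EU

open Finset Pool.Agent.H242R3.ES
open scoped Classical

variable {ι E : Type} [Fintype ι] [AddCommGroup E] [Module ℝ E] [FiniteDimensional ℝ E]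
  (V : ι → E)

/-- the faces of a configuration -/
abbrev FL : Type := {S : Set ι // Face V S}

noncomputable def frk (S : FL V) : ℕ := rk V S.1

theorem hG1 : TaskG1 := Pool.Agent.H603R3.ESG1.t
theorem hG2 : TaskG2 := Pool.Agent.H856R3.ESG2.t
theorem hG3 : TaskG3 := Pool.Agent.H242R3.ES.G3H78.t
theorem hG4 : TaskG4 := Pool.Agent.H925R.ES.G4.t
theorem hG5 : TaskG5 := Pool.Agent.H769R3.ES.t hG1 hG3

variable {V}

theorem span_zero {S : Set ι} {l : E →ₗ[ℝ] ℝ} (h : ∀ i ∈ S, l (V i) = 0) {y : E}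
    (hy : y ∈ Submodule.span ℝ (V '' S)) : l y = 0 := by
  have : Submodule.span ℝ (V '' S) ≤ LinearMap.ker l := by
    rw [Submodule.span_le]
    rintro _ ⟨i, hi, rfl⟩
    exact h i hi
  exact this hy

theorem cov_of {R S : FL V} (h : R < S) (hr : frk V S = frk V R + 1) : Cov V R.1 S.1 :=
  ⟨R.2, S.2, h, hr⟩

/-- one step towards `T0` -/
theorem step (w l : E →ₗ[ℝ] ℝ) {R S T T0 : Set ι} (hw0 : ∀ i, 0 ≤ w (V i))
    (hwR : ∀ i, i ∈ R ↔ w (V i) = 0) (hl0 : ∀ i, 0 ≤ l (V i)) (hlT : ∀ i, i ∈ T0 ↔ l (V i) = 0)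
    (hR : Face V R) (hS : Face V S) (hT : Face V T) (hRT : Cov V R T) (hRT0 : Cov V R T0)
    (hTS : T ⊆ S) (hT0S : T0 ⊆ S) (hne : T ≠ T0) (hrS : rk V R + 2 ≤ rk V S) {i : ι} (hiT : i ∈ T)
    (hiR : i ∉ R) : ∃ T' T'' : Set ι, ∃ j, Cov V T T' ∧ T' ⊆ S ∧ Cov V R T'' ∧ T'' ⊆ T' ∧ j ∈ T'' ∧
      j ∉ R ∧ l (V j) * w (V i) < l (V i) * w (V j) := by
  have hwi : 0 < w (V i) := lt_of_le_of_ne (hw0 i) (fun h => hiR ((hwR i).2 h.symm))
  -- l (V i) > 0
  have hli : 0 < l (V i) := by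
    refine lt_of_le_of_ne (hl0 i) (fun h => ?_)
    have hiT0 : i ∈ T0 := (hlT i).2 h.symm
    have h1 := (hG2 ι E V T T0 hT hRT0.2.1).1
    have h2 : R ⊂ T ∩ T0 := by
      refine ⟨Set.subset_inter hRT.2.2.1.1 hRT0.2.2.1.1, fun hsub => hiR (hsub ⟨hiT, hiT0⟩)⟩
    have h3 := (hG2 ι E V R (T ∩ T0) hR h1).2.1 h2
    have h4 : T ∩ T0 = T := by
      by_contra hh
      have := (hG2 ι E V (T ∩ T0) T h1 hT).2.1
        ⟨Set.inter_subset_left, fun hs => hh (Set.Subset.antisymm Set.inter_subset_left hs)⟩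
      have := hRT.2.2.2
      omega
    have h5 : T ∩ T0 = T0 := by
      by_contra hh
      have := (hG2 ι E V (T ∩ T0) T0 h1 hRT0.2.1).2.1
        ⟨Set.inter_subset_right, fun hs => hh (Set.Subset.antisymm Set.inter_subset_right hs)⟩
      have := hRT0.2.2.2
      omega
    exact hne (h4.symm.trans h5)
  -- the functional g
  set g : E →ₗ[ℝ] ℝ := w (V i) • l - l (V i) • w with hg
  have hgv : ∀ x, g x = w (V i) * l x - l (V i) * w x := fun x => rfl
  have hgR : ∀ k ∈ R, g (V k) = 0 := by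
    intro k hk
    rw [hgv, (hwR k).1 hk, (hlT k).1 (hRT0.2.2.1.1 hk)]
    ring
  have hgT : ∀ k ∈ T, g (V k) = 0 := by
    intro k hk
    -- V k ∈ span R + ℝ V i
    have hsp : Submodule.span ℝ (V '' T) = Submodule.span ℝ (V '' R) ⊔ Submodule.span ℝ {V i} := by
      symm
      apply Submodule.eq_of_le_of_finrank_le
      · rw [sup_le_iff]
        constructor
        · exact Submodule.span_mono (Set.image_mono hRT.2.2.1.1)
        · rw [Submodule.span_singleton_le_iff_mem]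
          exact Submodule.subset_span (Set.mem_image_of_mem V hiT)
      · have h1 : Submodule.span ℝ (V '' R) < Submodule.span ℝ (V '' R) ⊔ Submodule.span ℝ {V i} := by
          refine lt_of_le_of_ne le_sup_left (fun h => ?_)
          have h2 : V i ∈ Submodule.span ℝ (V '' R) := by
            rw [h]
            exact Submodule.mem_sup_right (Submodule.mem_span_singleton_self _)
          exact hiR (((hG2 ι E V R T hR hT).2.2 i).2 h2)
        have h2 := Submodule.finrank_lt_finrank_of_lt h1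
        have h3 : Module.finrank ℝ (Submodule.span ℝ (V '' T)) =
          Module.finrank ℝ (Submodule.span ℝ (V '' R)) + 1 := hRT.2.2.2
        omega
    have h1 : V k ∈ Submodule.span ℝ (V '' R) ⊔ Submodule.span ℝ {V i} := by
      rw [← hsp]; exact Submodule.subset_span (Set.mem_image_of_mem V hk)
    obtain ⟨y, hy, z, hz, hyz⟩ := Submodule.mem_sup.1 h1
    obtain ⟨c, rfl⟩ := Submodule.mem_span_singleton.1 hz
    rw [← hyz, map_add, span_zero hgR hy, map_smul, hgv (V i), zero_add]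
    simp [mul_comm]
  -- an element of T0 with g negative
  obtain ⟨i0, hi0, hi0R⟩ := Set.exists_of_ssubset hRT0.2.2.1
  have hg0 : g (V i0) < 0 := by
    rw [hgv, (hlT i0).1 hi0]
    have : 0 < w (V i0) := lt_of_le_of_ne (hw0 i0) (fun h => hi0R ((hwR i0).2 h.symm))
    nlinarith
  have hTS' : T ⊂ S := by
    refine ⟨hTS, fun h => ?_⟩
    have := Set.Subset.antisymm hTS h
    have h2 := hRT.2.2.2
    rw [this] at h2
    omega
  obtain ⟨y, a, hy, ha0, ha, hVi0⟩ := hG5 ι E V T S hT hS hTS' i0 (hT0S hi0)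
  have h1 : ∑ k, a k * g (V k) < 0 := by
    rw [hVi0, map_add, span_zero hgT hy, zero_add, map_sum] at hg0
    simpa [map_smul] using hg0
  obtain ⟨k, -, hk⟩ := Finset.exists_lt_of_sum_lt (s := univ) (f := fun k => a k * g (V k))
    (g := fun _ => (0 : ℝ)) (by simpa using h1)
  have hak : a k ≠ 0 := by rintro h; rw [h] at hk; simp at hk
  have hgk : g (V k) < 0 := by
    by_contra hh
    push Not at hh
    have := mul_nonneg (ha0 k) hh
    linarith
  obtain ⟨hkS, hkT, T', hT', hT'S, hkT'⟩ := ha k hak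
  have hrT' : rk V T' = rk V R + 2 := by
    have h1 := hT'.2.2.2
    have h2 := hRT.2.2.2
    omega
  have hRT' : R ⊂ T' := hRT.2.2.1.trans_subset hT'.2.2.1.1
  obtain ⟨T'', ⟨⟨hT''1, hT''2⟩, hT''3⟩, -⟩ := hG4 ι E V R T' hR hT'.2.1 hRT' hrT' T hRT
    hT'.2.2.1.1
  obtain ⟨y', b, hy', hb0, hb, hVk⟩ := hG5 ι E V R T' hR hT'.2.1 hRT' k hkT'
  have h2 : ∑ j, b j * g (V j) < 0 := by
    rw [hVk, map_add, span_zero hgR hy', zero_add, map_sum] at hgk
    simpa [map_smul] using hgk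
  obtain ⟨j, -, hj⟩ := Finset.exists_lt_of_sum_lt (s := univ) (f := fun k => b k * g (V k))
    (g := fun _ => (0 : ℝ)) (by simpa using h2)
  have hbj : b j ≠ 0 := by rintro h; rw [h] at hj; simp at hj
  have hgj : g (V j) < 0 := by
    by_contra hh
    push Not at hh
    have := mul_nonneg (hb0 j) hh
    linarith
  obtain ⟨hjT', hjR, T3, hT3, hT3T', hjT3⟩ := hb j hbj
  have hT3ne : T3 ≠ T := by
    rintro rfl
    rw [hgT j hjT3] at hgj
    exact lt_irrefl _ hgj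
  refine ⟨T', T3, j, hT', hT'S, hT3, hT3T', hjT3, hjR, ?_⟩
  rw [hgv] at hgj
  linarith

theorem three_of {L : Type} [PartialOrder L] {rk : L → ℕ} (mono : ∀ a b, a < b → rk a < rk b)
    (up : ∀ a b, a < b → ∃ c, a < c ∧ c ≤ b ∧ rk c = rk a + 1)
    (down : ∀ a b, a < b → ∃ c, a ≤ c ∧ c < b ∧ rk c + 1 = rk b)
    (meet : ∀ a b : L, ∃ m, m ≤ a ∧ m ≤ b ∧ ∀ x, x ≤ a → x ≤ b → x ≤ m)
    (diamond : ∀ a b c, a < c → c < b → rk b = rk a + 2 → ∃! c', (a < c' ∧ c' < b) ∧ c' ≠ c)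
    (a b : L) (hab : a < b) (hr : rk b = rk a + 3) : ∃ c1 c2 c3 : L, c1 ≠ c2 ∧ c1 ≠ c3 ∧ c2 ≠ c3 ∧
    (a < c1 ∧ c1 < b ∧ rk c1 = rk a + 1) ∧ (a < c2 ∧ c2 < b ∧ rk c2 = rk a + 1) ∧
    (a < c3 ∧ c3 < b ∧ rk c3 = rk a + 1) := by
  obtain ⟨c1, hac1, hc1b, hr1⟩ := up a b hab
  have hc1b' : c1 < b := lt_of_le_of_ne hc1b (by rintro rfl; omega)
  obtain ⟨d1, hcd1, hdb1, hrd1⟩ := down c1 b hc1b'
  have hcd1' : c1 < d1 := lt_of_le_of_ne hcd1 (by rintro rfl; omega)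
  obtain ⟨d2, ⟨⟨hcd2, hdb2⟩, hd21⟩, -⟩ := diamond c1 b d1 hcd1' hdb1 (by omega)
  have h1 := mono _ _ hcd2
  have h2 := mono _ _ hdb2
  obtain ⟨c2, ⟨⟨hac2, hcd2'⟩, hc21⟩, -⟩ := diamond a d1 c1 hac1 hcd1' (by omega)
  obtain ⟨c3, ⟨⟨hac3, hcd3'⟩, hc31⟩, -⟩ := diamond a d2 c1 hac1 hcd2 (by omega)
  have h3 := mono _ _ hac2
  have h4 := mono _ _ hcd2'
  have h5 := mono _ _ hac3
  have h6 := mono _ _ hcd3'
  refine ⟨c1, c2, c3, hc21.symm, hc31.symm, ?_, ⟨hac1, hc1b', hr1⟩,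
    ⟨hac2, hcd2'.trans hdb1, by omega⟩, ⟨hac3, hcd3'.trans hdb2, by omega⟩⟩
  rintro rfl
  obtain ⟨m, hm1, hm2, hm3⟩ := meet d1 d2
  have e1 := hm3 c1 hcd1'.le hcd2.le
  have e2 := hm3 c2 hcd2'.le hcd3'.le
  rcases hm1.eq_or_lt with h | h
  · rcases hm2.eq_or_lt with h' | h'
    · exact hd21 (h'.symm.trans h)
    · have := mono _ _ h'
      rw [h] at this
      omega
  · have := mono _ _ h
    rcases e1.eq_or_lt with h' | h'
    · rcases e2.eq_or_lt with h'' | h''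
      · exact hc21 (h''.trans h'.symm)
      · have := mono _ _ h''
        rw [← h'] at this
        omega
    · have := mono _ _ h'
      omega

theorem conn_of : ∀ a b : FL V, a < b → frk V a + 2 ≤ frk V b → ∀ C : Set (FL V),
    (∃ c ∈ C, a < c ∧ c ≤ b ∧ frk V c = frk V a + 1) →
    (∀ c c' w, c ∈ C → a < c → a < c' → frk V c = frk V a + 1 → frk V c' = frk V a + 1 → c < w → c' < w →
      w ≤ b → frk V w = frk V a + 2 → c' ∈ C) → ∀ c, a < c → c ≤ b → frk V c = frk V a + 1 → c ∈ C :=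
  fun a b hab hr C hC hcl t0 hat0 ht0b hrt0 => by
    obtain ⟨w, hw0, hwR⟩ := a.2
    obtain ⟨l, hl0, hlT⟩ := t0.2
    -- candidates
    let P : Set ι := {i | i ∉ a.1 ∧ ∃ c ∈ C, a < c ∧ c ≤ b ∧ frk V c = frk V a + 1 ∧ i ∈ c.1}
    have hPne : P.Nonempty := by
      obtain ⟨c, hc, hac, hcb, hrc⟩ := hC
      obtain ⟨i, hi, hia⟩ := Set.exists_of_ssubset (show a.1 ⊂ c.1 from hac)
      exact ⟨i, hia, c, hc, hac, hcb, hrc, hi⟩
    obtain ⟨i, hi, hmin⟩ := Set.exists_min_image P (fun i => l (V i) / w (V i)) P.toFinite hPne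
    obtain ⟨hia, c, hc, hac, hcb, hrc, hic⟩ := hi
    by_cases hne : c = t0
    · rw [← hne]; exact hc
    · exfalso
      obtain ⟨T', T'', j, hT', hT'S, hT'', hT''T', hj, hja, hlt⟩ := step w l hw0 hwR hl0 hlT a.2 b.2
        c.2 (cov_of hac hrc) (cov_of hat0 hrt0) hcb ht0b (fun h => hne (Subtype.ext h)) hr hic hia
      have hc'' : (⟨T'', hT''.2.1⟩ : FL V) ∈ C := by
        by_cases h : (⟨T'', hT''.2.1⟩ : FL V) = c
        · rw [h]; exact hc
        · have hr' : rk V T' = rk V a.1 + 2 := by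
            have h1 := hT'.2.2.2
            have h2 : rk V c.1 = rk V a.1 + 1 := hrc
            omega
          refine hcl c ⟨T'', hT''.2.1⟩ ⟨T', hT'.2.1⟩ hc hac hT''.2.2.1 hrc hT''.2.2.2 hT'.2.2.1
            (lt_of_le_of_ne hT''T' (fun h => ?_)) hT'S hr'
          have h3 : T'' = T' := congrArg Subtype.val h
          have h4 := hT''.2.2.2
          rw [h3] at h4
          omega
      have h1 := hmin j ⟨hja, ⟨T'', hT''.2.1⟩, hc'', hT''.2.2.1, hT''T'.trans hT'S, hT''.2.2.2, hj⟩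
      have hwi : 0 < w (V i) := lt_of_le_of_ne (hw0 i) (fun h => hia ((hwR i).2 h.symm))
      have hwj : 0 < w (V j) := lt_of_le_of_ne (hw0 j) (fun h => hja ((hwR j).2 h.symm))
      simp only [div_le_div_iff₀ hwi hwj] at h1
      linarith

theorem polyLike : PolyLike (FL V) (frk V) := by
  have mono : ∀ a b : FL V, a < b → frk V a < frk V b :=
    fun a b h => (hG2 ι E V a.1 b.1 a.2 b.2).2.1 h
  have up : ∀ a b : FL V, a < b → ∃ c, a < c ∧ c ≤ b ∧ frk V c = frk V a + 1 :=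
    fun a b h => by
    obtain ⟨⟨T, h1, h2⟩, -⟩ := hG3 ι E V a.1 b.1 a.2 b.2 h
    exact ⟨⟨T, h2.2.1⟩, h2.2.2.1, h1, h2.2.2.2⟩
  have down : ∀ a b : FL V, a < b → ∃ c, a ≤ c ∧ c < b ∧ frk V c + 1 = frk V b :=
    fun a b h => by
    obtain ⟨-, T, h1, h2⟩ := hG3 ι E V a.1 b.1 a.2 b.2 h
    exact ⟨⟨T, h2.1⟩, h1, h2.2.2.1, h2.2.2.2.symm⟩
  have meet : ∀ a b : FL V, ∃ m, m ≤ a ∧ m ≤ b ∧ ∀ x, x ≤ a → x ≤ b → x ≤ m :=
    fun a b => ⟨⟨a.1 ∩ b.1, (hG2 ι E V a.1 b.1 a.2 b.2).1⟩, Set.inter_subset_left,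
    Set.inter_subset_right, fun x h1 h2 => Set.subset_inter h1 h2⟩
  have diamond : ∀ a b c : FL V, a < c → c < b → frk V b = frk V a + 2 → ∃! c', (a < c' ∧ c' < b) ∧ c' ≠ c :=
    fun a b c hac hcb hr => by
    have hmono : ∀ a b : FL V, a < b → frk V a < frk V b :=
      fun a b h => (hG2 ι E V a.1 b.1 a.2 b.2).2.1 h
    have h1 := hmono _ _ hac
    have h2 := hmono _ _ hcb
    obtain ⟨T, ⟨⟨hT1, hT2⟩, hT3⟩, hT4⟩ := hG4 ι E V a.1 b.1 a.2 b.2 (hac.trans hcb) hr c.1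
      (cov_of hac (by omega)) hcb.le
    refine ⟨⟨T, hT1.2.1⟩, ⟨⟨hT1.2.2.1, ?_⟩, fun h => hT3 (congrArg Subtype.val h)⟩, ?_⟩
    · refine lt_of_le_of_ne hT2 (fun h => ?_)
      have h3 := hT1.2.2.2
      have h4 : T = b.1 := congrArg Subtype.val h
      rw [h4] at h3
      change rk V b.1 = rk V a.1 + 2 at hr
      omega
    · rintro y ⟨⟨hy1, hy2⟩, hy3⟩
      have h3 := hmono _ _ hy1
      have h4 := hmono _ _ hy2
      exact Subtype.ext (hT4 y.1 ⟨⟨cov_of hy1 (by omega), hy2.le⟩, fun h => hy3 (Subtype.ext h)⟩)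
  exact {
    mono := mono, up := up, down := down, meet := meet, diamond := diamond,
    three := three_of mono up down meet diamond,
    conn := conn_of }

end Pool.Agent.Q223.EU
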