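import Mathlib
import Pool.Agent.Q223.EU.Abs

/-!
# Eulerian posets agreeing with a polytope-like lattice outside one rank: the theorem
-/

set_option autoImplicit false

namespace Pool.Agent.Q223.EU

open Finset
open scoped Classical

/-- agreement outside rank `r + 1` -/
structure Agr (L Q : Type) [PartialOrder L] [PartialOrder Q] (rk : L → ℕ) (ρ : Q → ℕ) (r : ℕ)
    (g : L → Q) : Prop where
  le : ∀ x y, rk x ≠ r + 1 → rk y ≠ r + 1 → (g x ≤ g y ↔ x ≤ y)
  rank : ∀ x, rk x ≠ r + 1 → ρ (g x) = rk x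
  surj : ∀ q, ρ q ≠ r + 1 → ∃ x, rk x ≠ r + 1 ∧ g x = q

/-- `e` has the position of `R` -/
def Rel {L Q : Type} [PartialOrder L] [PartialOrder Q] (rk : L → ℕ) (r : ℕ) (g : L → Q)
    (e : Q) (R : L) : Prop :=
  rk R = r + 1 ∧ (∀ x, rk x ≠ r + 1 → (g x < e ↔ x < R)) ∧ ∀ y, rk y ≠ r + 1 → (e < g y ↔ R < y)

section

variable {L Q : Type} [PartialOrder L] [BoundedOrder L] [Fintype L] [PartialOrder Q]
  [BoundedOrder Q] [Fintype Q] {rk : L → ℕ} {ρ : Q → ℕ} {r : ℕ} {g : L → Q}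

theorem Agr.lt (hg : Agr L Q rk ρ r g) {x y : L} (hx : rk x ≠ r + 1) (hy : rk y ≠ r + 1) :
    g x < g y ↔ x < y := by
  rw [lt_iff_le_not_ge, lt_iff_le_not_ge, hg.le x y hx hy, hg.le y x hy hx]

theorem Agr.inj (hg : Agr L Q rk ρ r g) {x y : L} (hx : rk x ≠ r + 1) (hy : rk y ≠ r + 1)
    (h : g x = g y) : x = y :=
  le_antisymm ((hg.le x y hx hy).1 h.le) ((hg.le y x hy hx).1 h.ge)

/-- a diamond of `L` has two middle elements -/
theorem PolyLike.two (h : PolyLike L rk) {a b : L} (hab : a < b) (hr : rk b = rk a + 2) :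
    (univ.filter fun c => a < c ∧ c < b).card = 2 := by
  obtain ⟨c, hac, hcb, hrc⟩ := h.up a b hab
  have hcb' : c < b := lt_of_le_of_ne hcb (by rintro rfl; omega)
  obtain ⟨c', ⟨⟨h1, h2⟩, h3⟩, h4⟩ := h.diamond a b c hac hcb' hr
  rw [card_eq_two]
  refine ⟨c, c', Ne.symm h3, ?_⟩
  ext z
  rw [mem_filter, mem_insert, mem_singleton]
  constructor
  · rintro ⟨-, h5, h6⟩
    by_cases h7 : z = c
    · exact Or.inl h7
    · exact Or.inr (h4 z ⟨⟨h5, h6⟩, h7⟩)
  · rintro (rfl | rfl)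
    · exact ⟨mem_univ _, hac, hcb'⟩
    · exact ⟨mem_univ _, h1, h2⟩

/-- two elements of rank `k + 1` with two common lower bounds of rank `k` coincide -/
theorem PolyLike.eq_of_two (h : PolyLike L rk) {k : ℕ} {R R' x x' : L} (hR : rk R = k + 1)
    (hR' : rk R' = k + 1) (hx : rk x = k) (hx' : rk x' = k) (hne : x ≠ x') (h1 : x ≤ R)
    (h2 : x' ≤ R) (h3 : x ≤ R') (h4 : x' ≤ R') : R = R' := by
  obtain ⟨m, hm1, hm2, hm3⟩ := h.meet R R'
  have e1 := hm3 x h1 h3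
  have e2 := hm3 x' h2 h4
  have hrm : k + 1 ≤ rk m := by
    by_contra hcon
    have e3 : x = m := h.eq_of_le e1 (by omega)
    have e4 : x' = m := h.eq_of_le e2 (by omega)
    exact hne (e3.trans e4.symm)
  have e5 : m = R := h.eq_of_le hm1 (by omega)
  have e6 : m = R' := h.eq_of_le hm2 (by omega)
  exact e5.symm.trans e6

variable (hL : PolyLike L rk) (hQ : Eul Q ρ) (hr : 1 ≤ r) (hbL : rk (⊥ : L) = 0)
  (hbQ : ρ (⊥ : Q) = 0) (hN : r + 3 ≤ rk (⊤ : L)) (hg : Agr L Q rk ρ r g)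

include hL hQ hr hbL hbQ hN hg

theorem rank_top : r + 3 ≤ ρ (⊤ : Q) := by
  have h1 : g ⊤ ≤ ⊤ := le_top
  have h2 := hQ.mono_le h1
  rw [hg.rank ⊤ (by omega)] at h2
  omega

theorem exists_rel {e : Q} (he : ρ e = r + 1) : ∃ R, Rel rk r g e R := by
  have htop := rank_top hL hQ hr hbL hbQ hN hg
  -- two elements above
  have hU : ∃ y1 y2 : L, y1 ≠ y2 ∧ rk y1 = r + 2 ∧ rk y2 = r + 2 ∧ e < g y1 ∧ e < g y2 := by
    have h1 : e < ⊤ := lt_top_iff_ne_top.2 (by rintro rfl; omega)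
    obtain ⟨c1, h2, -, h3⟩ := hQ.up h1
    have h4 : c1 < ⊤ := lt_top_iff_ne_top.2 (by rintro rfl; omega)
    obtain ⟨z, h5, -, h6⟩ := hQ.up h4
    obtain ⟨c2, ⟨⟨h7, h8⟩, h9⟩, -⟩ := hQ.diamond h2 h5 (by omega)
    have h10 := hQ.mono h7
    have h11 := hQ.mono h8
    obtain ⟨y1, hy1, rfl⟩ := hg.surj c1 (by omega)
    obtain ⟨y2, hy2, rfl⟩ := hg.surj c2 (by omega)
    rw [hg.rank y1 hy1] at h3 h6
    rw [hg.rank y2 hy2] at h10 h11
    exact ⟨y1, y2, fun h => h9 (by rw [h]), by omega, by omega, h2, h7⟩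
  -- two elements below
  have hD : ∃ x1 x2 : L, x1 ≠ x2 ∧ rk x1 = r ∧ rk x2 = r ∧ g x1 < e ∧ g x2 < e := by
    have h1 : ⊥ < e := bot_lt_iff_ne_bot.2 (by rintro rfl; omega)
    obtain ⟨c1, -, h2, h3⟩ := hQ.down h1
    have h4 : ⊥ < c1 := bot_lt_iff_ne_bot.2 (by rintro rfl; omega)
    obtain ⟨z, -, h5, h6⟩ := hQ.down h4
    obtain ⟨c2, ⟨⟨h7, h8⟩, h9⟩, -⟩ := hQ.diamond h5 h2 (by omega)
    have h10 := hQ.mono h7
    have h11 := hQ.mono h8
    obtain ⟨y1, hy1, rfl⟩ := hg.surj c1 (by omega)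
    obtain ⟨y2, hy2, rfl⟩ := hg.surj c2 (by omega)
    rw [hg.rank y1 hy1] at h3 h6
    rw [hg.rank y2 hy2] at h10 h11
    exact ⟨y1, y2, fun h => h9 (by rw [h]), by omega, by omega, h2, h8⟩
  obtain ⟨y1, y2, hy12, hry1, hry2, hey1, hey2⟩ := hU
  obtain ⟨x1, x2, hx12, hrx1, hrx2, hex1, hex2⟩ := hD
  have hxy : ∀ x y, rk x = r → rk y = r + 2 → g x < e → e < g y → x < y := fun x y hx hy h1 h2 =>
    (hg.lt (by omega) (by omega)).1 (h1.trans h2)
  -- a rank computation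
  have hmeet : ∀ y y', rk y = r + 2 → rk y' = r + 2 → y ≠ y' → e < g y → e < g y' →
      ∃ M, M < y ∧ M < y' ∧ rk M = r + 1 ∧ ∀ x, x ≤ y → x ≤ y' → x ≤ M := by
    intro y y' hy hy' hne h1 h2
    obtain ⟨M, hM1, hM2, hM3⟩ := hL.meet y y'
    have e1 := hM3 x1 (hxy x1 y hrx1 hy hex1 h1).le (hxy x1 y' hrx1 hy' hex1 h2).le
    have e2 := hM3 x2 (hxy x2 y hrx2 hy hex2 h1).le (hxy x2 y' hrx2 hy' hex2 h2).le
    have hr1 : r + 1 ≤ rk M := by
      by_contra hcon
      have e3 : x1 = M := hL.eq_of_le e1 (by omega)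
      have e4 : x2 = M := hL.eq_of_le e2 (by omega)
      exact hx12 (e3.trans e4.symm)
    have hr2 : rk M ≤ r + 1 := by
      by_contra hcon
      have e3 : M = y := hL.eq_of_le hM1 (by omega)
      have e4 : M = y' := hL.eq_of_le hM2 (by omega)
      exact hne (e3.symm.trans e4)
    exact ⟨M, lt_of_le_of_ne hM1 (by rintro rfl; omega), lt_of_le_of_ne hM2 (by rintro rfl; omega),
      by omega, hM3⟩
  obtain ⟨R, hR1, hR2, hrR, hR3⟩ := hmeet y1 y2 hry1 hry2 hy12 hey1 hey2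
  have hDR : ∀ x, rk x = r → g x < e → x < R := fun x hx h1 =>
    lt_of_le_of_ne (hR3 x (hxy x y1 hx hry1 h1 hey1).le (hxy x y2 hx hry2 h1 hey2).le)
      (by rintro rfl; omega)
  have hUR : ∀ y, rk y = r + 2 → e < g y → R < y := by
    intro y hy h1
    by_cases h : y = y1
    · rw [h]; exact hR1
    · obtain ⟨M, hM1, hM2, hrM, hM3⟩ := hmeet y y1 hy hry1 h h1 hey1
      have e1 := hM3 x1 (hxy x1 y hrx1 hy hex1 h1).le (hxy x1 y1 hrx1 hry1 hex1 hey1).le
      have e2 := hM3 x2 (hxy x2 y hrx2 hy hex2 h1).le (hxy x2 y1 hrx2 hry1 hex2 hey1).le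
      have e3 : R = M := hL.eq_of_two hrR hrM hrx1 hrx2 hx12 (hDR x1 hrx1 hex1).le
        (hDR x2 hrx2 hex2).le e1 e2
      rw [e3]; exact hM1
  -- all coatoms of `R`
  have hDall : ∀ x, rk x = r → x < R → g x < e := by
    have h1 := hL.dconn (r - 1) ⊥ R (bot_lt_iff_ne_bot.2 (by rintro rfl; omega)) (by omega)
      {x | g x < e} ⟨x1, hex1, bot_le, hDR x1 hrx1 hex1, by omega⟩
      (by
        intro c c' w hc hcR hc'R hrc hrc' hwc hwc' _ hrw
        by_cases hcc : c' = c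
        · rw [hcc]; exact hc
        have hwc2 : g w < g c := (hg.lt (by omega) (by omega)).2 hwc
        have hce : g c < e := hc
        obtain ⟨q, ⟨⟨h2, h3⟩, h4⟩, -⟩ := hQ.diamond hwc2 hce (by
          rw [hg.rank w (by omega)]; omega)
        have h5 := hQ.mono h2
        have h6 := hQ.mono h3
        obtain ⟨x, hx, rfl⟩ := hg.surj q (by omega)
        rw [hg.rank x hx] at h5 h6
        rw [hg.rank w (by omega)] at h5
        have hxR := hDR x (by omega) h3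
        have hwx : w < x := (hg.lt (by omega) hx).1 h2
        obtain ⟨u, -, hu⟩ := hL.diamond w R c hwc hcR (by omega)
        have e1 := hu x ⟨⟨hwx, hxR⟩, fun h => h4 (by rw [h])⟩
        have e2 := hu c' ⟨⟨hwc', hc'R⟩, hcc⟩
        show g c' < e
        rw [e2, ← e1]
        exact h3)
    intro x hx hxR
    exact h1 x bot_le hxR (by omega)
  have hUall : ∀ y, rk y = r + 2 → R < y → e < g y := by
    have h1 := hL.conn R ⊤ (lt_top_iff_ne_top.2 (by rintro rfl; omega)) (by omega)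
      {y | e < g y} ⟨y1, hey1, hR1, le_top, by omega⟩
      (by
        intro c c' w hc hcR hc'R hrc hrc' hcw hc'w _ hrw
        by_cases hcc : c' = c
        · rw [hcc]; exact hc
        have hwc2 : g c < g w := (hg.lt (by omega) (by omega)).2 hcw
        have hce : e < g c := hc
        obtain ⟨q, ⟨⟨h2, h3⟩, h4⟩, -⟩ := hQ.diamond hce hwc2 (by
          rw [hg.rank w (by omega)]; omega)
        have h5 := hQ.mono h2
        have h6 := hQ.mono h3
        have hgw : ρ (g w) = rk w := hg.rank w (by omega)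
        obtain ⟨x, hx, rfl⟩ := hg.surj q (by omega)
        rw [hg.rank x hx] at h5 h6
        have hxR := hUR x (by omega) h2
        have hwx : x < w := (hg.lt hx (by omega)).1 h3
        obtain ⟨u, -, hu⟩ := hL.diamond R w c hcR hcw (by omega)
        have e1 := hu x ⟨⟨hxR, hwx⟩, fun h => h4 (by rw [h])⟩
        have e2 := hu c' ⟨⟨hc'R, hc'w⟩, hcc⟩
        show e < g c'
        rw [e2, ← e1]
        exact h2)
    intro y hy hyR
    exact h1 y hyR le_top (by omega)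
  refine ⟨R, hrR, fun x hx => ⟨fun h => ?_, fun h => ?_⟩, fun y hy => ⟨fun h => ?_, fun h => ?_⟩⟩
  · obtain ⟨c, h1, h2, h3⟩ := hQ.down h
    obtain ⟨x', hx', rfl⟩ := hg.surj c (by omega)
    rw [hg.rank x' hx'] at h3
    exact lt_of_le_of_lt ((hg.le x x' hx hx').1 h1) (hDR x' (by omega) h2)
  · obtain ⟨c, h1, h2, h3⟩ := hL.down x R h
    exact lt_of_le_of_lt ((hg.le x c hx (by omega)).2 h1) (hDall c (by omega) h2)
  · obtain ⟨c, h1, h2, h3⟩ := hQ.up h
    obtain ⟨x', hx', rfl⟩ := hg.surj c (by omega)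
    rw [hg.rank x' hx'] at h3
    exact lt_of_lt_of_le (hUR x' (by omega) h1) ((hg.le x' y hx' hy).1 h2)
  · obtain ⟨c, h1, h2, h3⟩ := hL.up R y h
    exact lt_of_lt_of_le (hUall c (by omega) h1) ((hg.le c y (by omega) hy).2 h2)

omit hQ hbQ hN hg [BoundedOrder Q] [Fintype Q] in
theorem rel_unique {e : Q} {R R' : L} (h1 : Rel rk r g e R) (h2 : Rel rk r g e R') : R = R' := by
  obtain ⟨c, -, hcR, hrc⟩ := hL.down ⊥ R (bot_lt_iff_ne_bot.2 (by rintro rfl; have := h1.1; omega))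
  have hrR := h1.1
  obtain ⟨w, -, hwc, hrw⟩ := hL.down ⊥ c (bot_lt_iff_ne_bot.2 (by rintro rfl; omega))
  obtain ⟨c', ⟨⟨h3, h4⟩, h5⟩, -⟩ := hL.diamond w R c hwc hcR (by omega)
  have h6 := hL.mono _ _ h3
  have h7 := hL.mono _ _ h4
  have e1 : c < R' := (h2.2.1 c (by omega)).1 ((h1.2.1 c (by omega)).2 hcR)
  have e2 : c' < R' := (h2.2.1 c' (by omega)).1 ((h1.2.1 c' (by omega)).2 h4)
  exact hL.eq_of_two hrR h2.1 (by omega) (by omega) (Ne.symm h5) hcR.le h4.le e1.le e2.le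

/-- multiplicity -/
noncomputable def mult (rk : L → ℕ) (r : ℕ) (g : L → Q) (R : L) : ℕ :=
  (univ.filter fun e : Q => Rel rk r g e R).card

omit [BoundedOrder L] [Fintype L] [BoundedOrder Q] hL hr hbL hbQ hN in
theorem rel_rank {e : Q} {R : L} (h : Rel rk r g e R) (hx : ∃ x y, x < R ∧ R < y ∧ rk x = r ∧
    rk y = r + 2) : ρ e = r + 1 := by
  obtain ⟨x, y, h1, h2, h3, h4⟩ := hx
  have h5 := hQ.mono ((h.2.1 x (by omega)).2 h1)
  have h6 := hQ.mono ((h.2.2 y (by omega)).2 h2)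
  rw [hg.rank x (by omega)] at h5
  rw [hg.rank y (by omega)] at h6
  omega

theorem mult_add {x y R1 R2 : L} (hx : rk x = r) (hy : rk y = r + 2) (h1 : x < R1) (h1' : R1 < y)
    (h2 : x < R2) (h2' : R2 < y) (hne : R1 ≠ R2) : mult rk r g R1 + mult rk r g R2 = 2 := by
  have hxy : g x < g y := (hg.lt (by omega) (by omega)).2 (h1.trans h1')
  have htwo := hQ.two hxy (by rw [hg.rank x (by omega), hg.rank y (by omega)]; omega)
  rw [← htwo, cnt, mult, mult, ← card_union_of_disjoint]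
  · congr 1
    ext e
    rw [mem_union, mem_filter, mem_filter, mem_filter]
    constructor
    · rintro (⟨-, h⟩ | ⟨-, h⟩)
      · refine ⟨mem_univ _, ((h.2.1 x (by omega)).2 h1).le, ((h.2.2 y (by omega)).2 h1').le, ?_⟩
        rw [rel_rank hQ hg h ⟨x, y, h1, h1', hx, hy⟩, hg.rank x (by omega)]; omega
      · refine ⟨mem_univ _, ((h.2.1 x (by omega)).2 h2).le, ((h.2.2 y (by omega)).2 h2').le, ?_⟩
        rw [rel_rank hQ hg h ⟨x, y, h2, h2', hx, hy⟩, hg.rank x (by omega)]; omega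
    · rintro ⟨-, h3, h4, h5⟩
      rw [hg.rank x (by omega)] at h5
      obtain ⟨R, hR⟩ := exists_rel hL hQ hr hbL hbQ hN hg (e := e) (by omega)
      have h6 : g x < e := lt_of_le_of_ne h3 (by
        intro h; rw [← h, hg.rank x (by omega)] at h5; omega)
      have h7 : e < g y := lt_of_le_of_ne h4 (by
        intro h; rw [h, hg.rank y (by omega)] at h5; omega)
      have h8 := (hR.2.1 x (by omega)).1 h6
      have h9 := (hR.2.2 y (by omega)).1 h7
      by_cases hRR : R = R1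
      · left; exact ⟨mem_univ _, hRR ▸ hR⟩
      · right
        obtain ⟨u, -, hu⟩ := hL.diamond x y R1 h1 h1' (by omega)
        have e1 := hu R ⟨⟨h8, h9⟩, hRR⟩
        have e2 := hu R2 ⟨⟨h2, h2'⟩, Ne.symm hne⟩
        exact ⟨mem_univ _, by rw [e2, ← e1]; exact hR⟩
  · rw [disjoint_left]
    intro e he1 he2
    rw [mem_filter] at he1 he2
    exact hne (rel_unique hL hr hbL he1.2 he2.2)

end

end Pool.Agent.Q223.EU
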