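import Mathlib
import Pool.Agent.Q223.EU.Main

/-!
# Eulerian posets agreeing with a polytope-like lattice outside one rank: multiplicities are one
-/

set_option autoImplicit false

namespace Pool.Agent.Q223.EU

open Finset
open scoped Classical

section

variable {L Q : Type} [PartialOrder L] [BoundedOrder L] [Fintype L] [PartialOrder Q]
  [BoundedOrder Q] [Fintype Q] {rk : L → ℕ} {ρ : Q → ℕ} {r : ℕ} {g : L → Q}

variable (hL : PolyLike L rk) (hQ : Eul Q ρ) (hr : 1 ≤ r) (hbL : rk (⊥ : L) = 0)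
  (hbQ : ρ (⊥ : Q) = 0) (hN : r + 3 ≤ rk (⊤ : L)) (hg : Agr L Q rk ρ r g)

include hL hQ hr hbL hbQ hN hg

/-- the middle elements of a diamond have multiplicities `0, 2` if none has multiplicity `1` -/
theorem one_two {x y : L} (hx : rk x = r) (hy : rk y = r + 2) (hxy : x < y)
    (hne : ∀ R, x < R → R < y → mult rk r g R ≠ 1) :
    (univ.filter fun R => (x < R ∧ R < y) ∧ mult rk r g R = 2).card = 1 := by
  have h2 := hL.two hxy (by omega)
  obtain ⟨R1, R2, h12, he⟩ := card_eq_two.1 h2
  have hmem : ∀ z, (x < z ∧ z < y) ↔ z = R1 ∨ z = R2 := by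
    intro z
    have h3 : z ∈ (univ.filter fun c => x < c ∧ c < y) ↔ z = R1 ∨ z = R2 := by
      rw [he]; simp
    rw [← h3, mem_filter]
    simp
  have h3 := (hmem R1).2 (Or.inl rfl)
  have h4 := (hmem R2).2 (Or.inr rfl)
  have hadd := mult_add hL hQ hr hbL hbQ hN hg hx hy h3.1 h3.2 h4.1 h4.2 h12
  have n1 := hne R1 h3.1 h3.2
  have n2 := hne R2 h4.1 h4.2
  rw [card_eq_one]
  rcases (by omega : mult rk r g R1 = 2 ∧ mult rk r g R2 = 0 ∨
    mult rk r g R1 = 0 ∧ mult rk r g R2 = 2) with ⟨h5, h6⟩ | ⟨h5, h6⟩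
  · refine ⟨R1, ?_⟩
    ext z
    rw [mem_filter, mem_singleton, hmem]
    constructor
    · rintro ⟨-, h7 | h7, h8⟩
      · exact h7
      · rw [h7] at h8; omega
    · rintro rfl
      exact ⟨mem_univ _, Or.inl rfl, h5⟩
  · refine ⟨R2, ?_⟩
    ext z
    rw [mem_filter, mem_singleton, hmem]
    constructor
    · rintro ⟨-, h7 | h7, h8⟩
      · rw [h7] at h8; omega
      · exact h7
    · rintro rfl
      exact ⟨mem_univ _, Or.inr rfl, h6⟩

/-- at least four elements of rank `r + 2` in the interval above `v` -/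
theorem four_up {v y0 : L} (hv : rk v = r) (hy0 : rk y0 = r + 3) (hvy : v < y0)
    (hne : ∀ R, v < R → R < y0 → rk R = r + 1 → mult rk r g R ≠ 1) :
    4 ≤ (univ.filter fun y => v < y ∧ y < y0 ∧ rk y = r + 2).card := by
  set Y := univ.filter fun y => v < y ∧ y < y0 ∧ rk y = r + 2 with hY
  set R1 := univ.filter fun R => v < R ∧ R < y0 ∧ rk R = r + 1 with hR1
  set R2 := univ.filter fun R => (v < R ∧ R < y0 ∧ rk R = r + 1) ∧ mult rk r g R = 2 with hR2
  -- incidences
  have a1 : ∀ R ∈ R1, (Y.bipartiteAbove (fun R y => R < y) R).card = 2 := by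
    intro R hR
    rw [hR1, mem_filter] at hR
    rw [← hL.two hR.2.2.1 (by omega)]
    congr 1
    ext y
    rw [mem_bipartiteAbove, hY, mem_filter, mem_filter]
    constructor
    · rintro ⟨⟨-, -, h1, -⟩, h2⟩; exact ⟨mem_univ _, h2, h1⟩
    · rintro ⟨-, h1, h2⟩
      have := hL.mono _ _ h1
      have := hL.mono _ _ h2
      exact ⟨⟨mem_univ _, hR.2.1.trans h1, h2, by omega⟩, h1⟩
  have a2 : ∀ y ∈ Y, (R1.bipartiteBelow (fun R y => R < y) y).card = 2 := by
    intro y hy
    rw [hY, mem_filter] at hy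
    rw [← hL.two hy.2.1 (by omega)]
    congr 1
    ext R
    rw [mem_bipartiteBelow, hR1, mem_filter, mem_filter]
    constructor
    · rintro ⟨⟨-, h1, -, -⟩, h2⟩; exact ⟨mem_univ _, h1, h2⟩
    · rintro ⟨-, h1, h2⟩
      have := hL.mono _ _ h1
      have := hL.mono _ _ h2
      exact ⟨⟨mem_univ _, h1, h2.trans hy.2.2.1, by omega⟩, h2⟩
  have a3 : ∀ R ∈ R2, (Y.bipartiteAbove (fun R y => R < y) R).card = 2 := by
    intro R hR
    rw [hR2, mem_filter] at hR
    exact a1 R (by rw [hR1, mem_filter]; exact ⟨mem_univ _, hR.2.1⟩)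
  have a4 : ∀ y ∈ Y, (R2.bipartiteBelow (fun R y => R < y) y).card = 1 := by
    intro y hy
    rw [hY, mem_filter] at hy
    rw [← one_two hL hQ hr hbL hbQ hN hg hv hy.2.2.2 hy.2.1 (fun R h1 h2 => by
      have := hL.mono _ _ h1
      have := hL.mono _ _ h2
      exact hne R h1 (h2.trans hy.2.2.1) (by omega))]
    congr 1
    ext R
    rw [mem_bipartiteBelow, hR2, mem_filter, mem_filter]
    constructor
    · rintro ⟨⟨-, ⟨h1, -, -⟩, h3⟩, h2⟩; exact ⟨mem_univ _, ⟨h1, h2⟩, h3⟩
    · rintro ⟨-, ⟨h1, h2⟩, h3⟩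
      have := hL.mono _ _ h1
      have := hL.mono _ _ h2
      exact ⟨⟨mem_univ _, ⟨h1, h2.trans hy.2.2.1, by omega⟩, h3⟩, h2⟩
  have b1 := card_mul_eq_card_mul (fun R y => R < y) a1 a2
  have b2 := card_mul_eq_card_mul (fun R y => R < y) a3 a4
  have b3 : 3 ≤ R1.card := by
    obtain ⟨c1, c2, c3, h12, h13, h23, h1, h2, h3⟩ := hL.three v y0 hvy (by omega)
    have : ({c1, c2, c3} : Finset L) ⊆ R1 := by
      intro c hc
      rw [mem_insert, mem_insert, mem_singleton] at hc
      rw [hR1, mem_filter]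
      rcases hc with rfl | rfl | rfl
      · exact ⟨mem_univ _, h1.1, h1.2.1, by omega⟩
      · exact ⟨mem_univ _, h2.1, h2.2.1, by omega⟩
      · exact ⟨mem_univ _, h3.1, h3.2.1, by omega⟩
    calc 3 = ({c1, c2, c3} : Finset L).card := (card_eq_three.2 ⟨c1, c2, c3, h12, h13, h23, rfl⟩).symm
      _ ≤ _ := card_le_card this
  omega

/-- at least four elements of rank `r` in the interval below `y` -/
theorem four_down {x0 y : L} (hx0 : rk x0 + 1 = r) (hy : rk y = r + 2) (hxy : x0 < y)
    (hne : ∀ R, x0 < R → R < y → rk R = r + 1 → mult rk r g R ≠ 1) :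
    4 ≤ (univ.filter fun v => x0 < v ∧ v < y ∧ rk v = r).card := by
  set V := univ.filter fun v => x0 < v ∧ v < y ∧ rk v = r with hV
  set R2 := univ.filter fun R => (x0 < R ∧ R < y ∧ rk R = r + 1) ∧ mult rk r g R = 2 with hR2
  have a3 : ∀ R ∈ R2, (V.bipartiteBelow (fun v R => v < R) R).card = 2 := by
    intro R hR
    rw [hR2, mem_filter] at hR
    rw [← hL.two hR.2.1.1 (by omega)]
    congr 1
    ext v
    rw [mem_bipartiteBelow, hV, mem_filter, mem_filter]
    constructor
    · rintro ⟨⟨-, h1, -, -⟩, h2⟩; exact ⟨mem_univ _, h1, h2⟩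
    · rintro ⟨-, h1, h2⟩
      have := hL.mono _ _ h1
      have := hL.mono _ _ h2
      exact ⟨⟨mem_univ _, h1, h2.trans hR.2.1.2.1, by omega⟩, h2⟩
  have a4 : ∀ v ∈ V, (R2.bipartiteAbove (fun v R => v < R) v).card = 1 := by
    intro v hv
    rw [hV, mem_filter] at hv
    rw [← one_two hL hQ hr hbL hbQ hN hg hv.2.2.2 hy hv.2.2.1 (fun R h1 h2 => by
      have := hL.mono _ _ h1
      have := hL.mono _ _ h2
      exact hne R (hv.2.1.trans h1) h2 (by omega))]
    congr 1
    ext R
    rw [mem_bipartiteAbove, hR2, mem_filter, mem_filter]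
    constructor
    · rintro ⟨⟨-, ⟨-, h1, -⟩, h3⟩, h2⟩; exact ⟨mem_univ _, ⟨h2, h1⟩, h3⟩
    · rintro ⟨-, ⟨h1, h2⟩, h3⟩
      have := hL.mono _ _ h1
      have := hL.mono _ _ h2
      exact ⟨⟨mem_univ _, ⟨hv.2.1.trans h1, h2, by omega⟩, h3⟩, h1⟩
  have b2 := card_mul_eq_card_mul (fun v R => v < R) a4 a3
  have b3 : 3 ≤ V.card := by
    obtain ⟨c1, c2, c3, h12, h13, h23, h1, h2, h3⟩ := hL.three x0 y hxy (by omega)
    have : ({c1, c2, c3} : Finset L) ⊆ V := by
      intro c hc
      rw [mem_insert, mem_insert, mem_singleton] at hc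
      rw [hV, mem_filter]
      rcases hc with rfl | rfl | rfl
      · exact ⟨mem_univ _, h1.1, h1.2.1, by omega⟩
      · exact ⟨mem_univ _, h2.1, h2.2.1, by omega⟩
      · exact ⟨mem_univ _, h3.1, h3.2.1, by omega⟩
    calc 3 = ({c1, c2, c3} : Finset L).card := (card_eq_three.2 ⟨c1, c2, c3, h12, h13, h23, rfl⟩).symm
      _ ≤ _ := card_le_card this
  omega

/-- the set of elements with multiplicity different from `1` spreads over an interval of
length three -/
theorem spread3 {v y0 : L} (hv : rk v = r) (hy0 : rk y0 = r + 3) (hvy : v < y0) {R0 : L}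
    (hR0 : v < R0) (hR0' : R0 < y0) (hrR0 : rk R0 = r + 1) (hne : mult rk r g R0 ≠ 1) :
    ∀ R, v < R → R < y0 → rk R = r + 1 → mult rk r g R ≠ 1 := by
  have h := hL.conn v y0 hvy (by omega) {R | mult rk r g R ≠ 1}
    ⟨R0, hne, hR0, hR0'.le, by omega⟩
    (by
      intro c c' w hc hvc hvc' hrc hrc' hcw hc'w _ hrw
      by_cases hcc : c' = c
      · rw [hcc]; exact hc
      have hadd := mult_add hL hQ hr hbL hbQ hN hg hv (y := w) (by omega) hvc hcw hvc' hc'w
        (Ne.symm hcc)
      have hc0 : mult rk r g c ≠ 1 := hc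
      show mult rk r g c' ≠ 1
      omega)
  intro R h1 h2 h3
  exact h R h1 h2.le (by omega)

theorem mult_one {R0 : L} (hrR0 : rk R0 = r + 1) : mult rk r g R0 = 1 := by
  by_contra hne0
  have htop := rank_top hL hQ hr hbL hbQ hN hg
  -- the interval
  obtain ⟨c, -, hcR, hrc⟩ := hL.down ⊥ R0 (bot_lt_iff_ne_bot.2 (by rintro rfl; omega))
  obtain ⟨x0, -, hx0c, hrx0⟩ := hL.down ⊥ c (bot_lt_iff_ne_bot.2 (by rintro rfl; omega))
  obtain ⟨d, hRd, -, hrd⟩ := hL.up R0 ⊤ (lt_top_iff_ne_top.2 (by rintro rfl; omega))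
  obtain ⟨y0, hdy0, -, hry0⟩ := hL.up d ⊤ (lt_top_iff_ne_top.2 (by rintro rfl; omega))
  have hxR : x0 < R0 := hx0c.trans hcR
  have hRy : R0 < y0 := hRd.trans hdy0
  have hxy : x0 < y0 := hxR.trans hRy
  have hatoms := hL.conn x0 y0 hxy (by omega)
    {v | ∀ R, v < R → R < y0 → rk R = r + 1 → mult rk r g R ≠ 1}
    ⟨c, spread3 hL hQ hr hbL hbQ hN hg (by omega) (by omega) (hcR.trans hRy) hcR hRy hrR0 hne0,
      hx0c, (hcR.trans hRy).le, by omega⟩
    (by
      intro v v' w hv hxv hxv' hrv hrv' hvw hv'w hwy hrw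
      have hwy' : w < y0 := lt_of_le_of_ne hwy (by rintro rfl; omega)
      exact spread3 hL hQ hr hbL hbQ hN hg (by omega) (by omega) (hv'w.trans hwy') hv'w hwy'
        (by omega) (hv w hvw hwy' (by omega)))
  have hB : ∀ R, x0 < R → R < y0 → rk R = r + 1 → mult rk r g R ≠ 1 := by
    intro R h1 h2 h3
    obtain ⟨v, h4, h5, h6⟩ := hL.up x0 R h1
    have h7 : v < R := lt_of_le_of_ne h5 (by rintro rfl; omega)
    exact hatoms v h4 (h7.trans h2).le (by omega) R h7 h2 h3
  -- counting in `Q`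
  have hgxy : g x0 < g y0 := (hg.lt (by omega) (by omega)).2 hxy
  have hrgx : ρ (g x0) = rk x0 := hg.rank x0 (by omega)
  have hrgy : ρ (g y0) = rk y0 := hg.rank y0 (by omega)
  have heul := hQ.four hgxy (by omega)
  set V := univ.filter fun z => g x0 ≤ z ∧ z ≤ g y0 ∧ ρ z = ρ (g x0) + 1 with hV
  set E := univ.filter fun z => g x0 ≤ z ∧ z ≤ g y0 ∧ ρ z = ρ (g x0) + 2 with hE
  set F := univ.filter fun z => g x0 ≤ z ∧ z ≤ g y0 ∧ ρ z = ρ (g x0) + 3 with hF
  have heul' : E.card + 2 = V.card + F.card := heul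
  have strictx : ∀ z : Q, g x0 ≤ z → ρ z ≠ ρ (g x0) → g x0 < z := fun z h1 h2 =>
    lt_of_le_of_ne h1 (fun h => h2 (by rw [← h]))
  have stricty : ∀ z : Q, z ≤ g y0 → ρ z ≠ ρ (g y0) → z < g y0 := fun z h1 h2 =>
    lt_of_le_of_ne h1 (fun h => h2 (by rw [h]))
  have c1 : V.card * 4 ≤ E.card * 2 := by
    apply card_mul_le_card_mul (fun z e => z < e)
    · intro z hz
      rw [hV, mem_filter] at hz
      obtain ⟨-, hz1, hz2, hz3⟩ := hz
      obtain ⟨v, hv, rfl⟩ := hg.surj z (by omega)
      have hrv := hg.rank v hv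
      have hxv : x0 < v := (hg.lt (by omega) hv).1 (strictx _ hz1 (by omega))
      have hvy : v < y0 := (hg.lt hv (by omega)).1 (stricty _ hz2 (by omega))
      have h4 := four_up hL hQ hr hbL hbQ hN hg (v := v) (by omega) (by omega) hvy
        (fun R h1 h2 h3 => hB R (hxv.trans h1) h2 h3)
      have hgvy : g v < g y0 := (hg.lt hv (by omega)).2 hvy
      have h5 := hQ.three hgvy (by omega)
      have h6 : cnt ρ (g v) (g y0) 1 ≤ (E.bipartiteAbove (fun z e => z < e) (g v)).card := by
        unfold cnt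
        apply card_le_card
        intro e he
        rw [mem_filter] at he
        rw [mem_bipartiteAbove, hE, mem_filter]
        refine ⟨⟨mem_univ _, hz1.trans he.2.1, he.2.2.1, by omega⟩, lt_of_le_of_ne he.2.1 ?_⟩
        intro h
        rw [← h] at he
        omega
      have h7 : (univ.filter fun y => v < y ∧ y < y0 ∧ rk y = r + 2).card ≤
          cnt ρ (g v) (g y0) 2 := by
        unfold cnt
        apply card_le_card_of_injOn g
        · intro y hy
          rw [mem_coe, mem_filter] at hy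
          rw [mem_coe, mem_filter]
          have hry := hg.rank y (by omega)
          exact ⟨mem_univ _, ((hg.lt hv (by omega)).2 hy.2.1).le,
            ((hg.lt (by omega) (by omega)).2 hy.2.2.1).le, by omega⟩
        · intro y hy y' hy' h
          rw [mem_coe, mem_filter] at hy hy'
          exact hg.inj (by omega) (by omega) h
      omega
    · intro e he
      rw [hE, mem_filter] at he
      obtain ⟨-, he1, he2, he3⟩ := he
      have h1 := hQ.two (strictx e he1 (by omega)) he3
      rw [← h1]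
      unfold cnt
      apply card_le_card
      intro z hz
      rw [mem_bipartiteBelow, hV, mem_filter] at hz
      rw [mem_filter]
      exact ⟨mem_univ _, hz.1.2.1, hz.2.le, hz.1.2.2.2⟩
  have c2 : F.card * 4 ≤ E.card * 2 := by
    apply card_mul_le_card_mul (fun z e => e < z)
    · intro z hz
      rw [hF, mem_filter] at hz
      obtain ⟨-, hz1, hz2, hz3⟩ := hz
      obtain ⟨y, hy, rfl⟩ := hg.surj z (by omega)
      have hry := hg.rank y hy
      have hxy' : x0 < y := (hg.lt (by omega) hy).1 (strictx _ hz1 (by omega))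
      have hyy : y < y0 := (hg.lt hy (by omega)).1 (stricty _ hz2 (by omega))
      have h4 := four_down hL hQ hr hbL hbQ hN hg (x0 := x0) (y := y) (by omega) (by omega) hxy'
        (fun R h1 h2 h3 => hB R h1 (h2.trans hyy) h3)
      have hgxy' : g x0 < g y := (hg.lt (by omega) hy).2 hxy'
      have h5 := hQ.three hgxy' (by omega)
      have h6 : cnt ρ (g x0) (g y) 2 ≤ (E.bipartiteAbove (fun z e => e < z) (g y)).card := by
        unfold cnt
        apply card_le_card
        intro e he
        rw [mem_filter] at he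
        rw [mem_bipartiteAbove, hE, mem_filter]
        refine ⟨⟨mem_univ _, he.2.1, he.2.2.1.trans hz2, he.2.2.2⟩, lt_of_le_of_ne he.2.2.1 ?_⟩
        intro h
        rw [h] at he
        omega
      have h7 : (univ.filter fun v => x0 < v ∧ v < y ∧ rk v = r).card ≤
          cnt ρ (g x0) (g y) 1 := by
        unfold cnt
        apply card_le_card_of_injOn g
        · intro v hv
          rw [mem_coe, mem_filter] at hv
          rw [mem_coe, mem_filter]
          have hrv := hg.rank v (by omega)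
          exact ⟨mem_univ _, ((hg.lt (by omega) (by omega)).2 hv.2.1).le,
            ((hg.lt (by omega) hy).2 hv.2.2.1).le, by omega⟩
        · intro y hy y' hy' h
          rw [mem_coe, mem_filter] at hy hy'
          exact hg.inj (by omega) (by omega) h
      omega
    · intro e he
      rw [hE, mem_filter] at he
      obtain ⟨-, he1, he2, he3⟩ := he
      have h1 := hQ.two (stricty e he2 (by omega)) (by omega)
      rw [← h1]
      unfold cnt
      apply card_le_card
      intro z hz
      rw [mem_bipartiteBelow, hF, mem_filter] at hz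
      rw [mem_filter]
      exact ⟨mem_univ _, hz.2.le, hz.1.2.2.1, by omega⟩
  omega

/-- the isomorphism -/
theorem exists_iso : ∃ Ψ : L ≃o Q, ∀ x, rk x ≠ r + 1 → Ψ x = g x := by
  have hone : ∀ R : L, ∃ e : Q, rk R = r + 1 → (Rel rk r g e R ∧ ∀ e', Rel rk r g e' R → e' = e) := by
    intro R
    by_cases hR : rk R = r + 1
    · have h1 := mult_one hL hQ hr hbL hbQ hN hg hR
      unfold mult at h1
      obtain ⟨e, he⟩ := card_eq_one.1 h1
      refine ⟨e, fun _ => ⟨?_, fun e' he' => ?_⟩⟩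
      · have : e ∈ univ.filter fun e : Q => Rel rk r g e R := by rw [he]; exact mem_singleton_self e
        exact (mem_filter.1 this).2
      · have : e' ∈ univ.filter fun e : Q => Rel rk r g e R := mem_filter.2 ⟨mem_univ _, he'⟩
        rw [he] at this
        exact mem_singleton.1 this
    · exact ⟨⊥, fun h => absurd h hR⟩
  choose e he using hone
  let Ψ : L → Q := fun x => if rk x = r + 1 then e x else g x
  have hΨ1 : ∀ x, rk x ≠ r + 1 → Ψ x = g x := fun x hx => if_neg hx
  have hΨ2 : ∀ x, rk x = r + 1 → Ψ x = e x := fun x hx => if_pos hx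
  have hrank : ∀ x, ρ (Ψ x) = rk x := by
    intro x
    by_cases hx : rk x = r + 1
    · rw [hΨ2 x hx, hx]
      obtain ⟨c, -, h1, h2⟩ := hL.down ⊥ x (bot_lt_iff_ne_bot.2 (by rintro rfl; omega))
      obtain ⟨d, h3, -, h4⟩ := hL.up x ⊤ (lt_top_iff_ne_top.2 (by rintro rfl; omega))
      exact rel_rank hQ hg (he x hx).1 ⟨c, d, h1, h3, by omega, by omega⟩
    · rw [hΨ1 x hx, hg.rank x hx]
  have hle : ∀ x y, Ψ x ≤ Ψ y ↔ x ≤ y := by
    intro x y
    by_cases hx : rk x = r + 1 <;> by_cases hy : rk y = r + 1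
    · constructor
      · intro h
        have h1 : Ψ x = Ψ y := by
          rcases h.eq_or_lt with h2 | h2
          · exact h2
          · have := hQ.mono h2
            rw [hrank, hrank] at this
            omega
        rw [hΨ2 x hx, hΨ2 y hy] at h1
        have h2 : x = y := rel_unique hL hr hbL (he x hx).1 (h1 ▸ (he y hy).1)
        exact h2.le
      · intro h
        have : x = y := hL.eq_of_le h (by omega)
        rw [this]
    · rw [hΨ2 x hx, hΨ1 y hy]
      have h1 := (he x hx).1.2.2 y hy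
      constructor
      · intro h
        exact (h1.1 (lt_of_le_of_ne h (fun h2 => by
          have h3 := congrArg ρ h2
          rw [← hΨ2 x hx, ← hΨ1 y hy, hrank, hrank] at h3
          omega))).le
      · intro h
        exact (h1.2 (lt_of_le_of_ne h (by rintro rfl; omega))).le
    · rw [hΨ1 x hx, hΨ2 y hy]
      have h1 := (he y hy).1.2.1 x hx
      constructor
      · intro h
        exact (h1.1 (lt_of_le_of_ne h (fun h2 => by
          have h3 := congrArg ρ h2
          rw [← hΨ1 x hx, ← hΨ2 y hy, hrank, hrank] at h3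
          omega))).le
      · intro h
        exact (h1.2 (lt_of_le_of_ne h (by rintro rfl; omega))).le
    · rw [hΨ1 x hx, hΨ1 y hy]
      exact hg.le x y hx hy
  have hsurj : Function.Surjective Ψ := by
    intro q
    by_cases hq : ρ q = r + 1
    · obtain ⟨R, hR⟩ := exists_rel hL hQ hr hbL hbQ hN hg hq
      exact ⟨R, by rw [hΨ2 R hR.1]; exact ((he R hR.1).2 q hR).symm⟩
    · obtain ⟨x, hx, rfl⟩ := hg.surj q hq
      exact ⟨x, hΨ1 x hx⟩
  have hinj : Function.Injective Ψ := fun x y h =>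
    le_antisymm ((hle x y).1 h.le) ((hle y x).1 h.ge)
  exact ⟨⟨Equiv.ofBijective Ψ ⟨hinj, hsurj⟩, fun {x y} => hle x y⟩, hΨ1⟩

end

end Pool.Agent.Q223.EU
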