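import Mathlib
import Pool.Agent.Q223.EU.Cone
import Pool.Agent.Q223.VF.Poly2

/-!
# The face lattice of a polytope as the face lattice of a cone
-/

set_option autoImplicit false

namespace Pool.Agent.Q223.EU

open Finset Pool.Agent.H242R3.ES Pool.Agent.Q223.PG Pool.Agent.Q223.Poly Module
open scoped Classical

variable {ι E : Type} [Fintype ι] [NormedAddCommGroup E] [NormedSpace ℝ E] [FiniteDimensional ℝ E]

/-- homogenization -/
def hm (V : ι → E) : ι → E × ℝ := fun i => (V i, 1)

omit [Fintype ι] [FiniteDimensional ℝ E] in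
theorem face_hm_iff {V : ι → E} {T : Set ι} : Face (hm V) T ↔
    ∃ (l : E →ₗ[ℝ] ℝ) (c : ℝ), (∀ i ∈ T, l (V i) = c) ∧ ∀ i ∉ T, l (V i) < c := by
  constructor
  · rintro ⟨m, hm0, hmT⟩
    have hd : ∀ i, m (hm V i) = m (0, 1) + m (V i, 0) := by
      intro i
      rw [← map_add]
      congr 1
      simp [hm]
    refine ⟨-(m.comp (LinearMap.inl ℝ E ℝ)), m (0, 1), fun i hi => ?_, fun i hi => ?_⟩
    · have h1 := (hmT i).1 hi
      rw [hd i] at h1
      simp only [LinearMap.neg_apply, LinearMap.comp_apply, LinearMap.inl_apply]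
      linarith
    · have h1 : m (hm V i) ≠ 0 := fun h => hi ((hmT i).2 h)
      have h2 := lt_of_le_of_ne (hm0 i) (Ne.symm h1)
      rw [hd i] at h2
      simp only [LinearMap.neg_apply, LinearMap.comp_apply, LinearMap.inl_apply]
      linarith
  · rintro ⟨l, c, h1, h2⟩
    have hv : ∀ i, (c • LinearMap.snd ℝ E ℝ - l.comp (LinearMap.fst ℝ E ℝ)) (hm V i) =
        c - l (V i) := by
      intro i
      simp [hm]
    refine ⟨c • LinearMap.snd ℝ E ℝ - l.comp (LinearMap.fst ℝ E ℝ), fun i => ?_, fun i => ?_⟩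
    · rw [hv]
      by_cases hi : i ∈ T
      · rw [h1 i hi]; simp
      · have := h2 i hi; linarith
    · rw [hv]
      constructor
      · intro hi; rw [h1 i hi]; ring
      · intro h
        by_contra hi
        have := h2 i hi; linarith

omit [Fintype ι] [FiniteDimensional ℝ E] in
theorem mem_hull_face {V : ι → E} {T : Set ι} (hT : Face (hm V) T) {i : ι}
    (hi : V i ∈ convexHull ℝ (V '' T)) : i ∈ T := by
  obtain ⟨l, c, h1, h2⟩ := face_hm_iff.1 hT
  by_contra hn
  have h3 : convexHull ℝ (V '' T) ⊆ {y | l y = c} := by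
    apply convexHull_min
    · rintro _ ⟨j, hj, rfl⟩; exact h1 j hj
    · exact convex_hyperplane l.isLinear c
  have := h3 hi
  exact (h2 i hn).ne this

/-- the faces of a convex set, with the empty set and the set itself -/
abbrev FS (P : Set E) : Type := {F : Set E // IsExposed ℝ P F}

theorem exposed_of_face {V : ι → E} (hV : Conf V) {T : Set ι} (hT : Face (hm V) T) :
    IsExposed ℝ (convexHull ℝ (Set.range V)) (convexHull ℝ (V '' T)) := by
  rcases T.eq_empty_or_nonempty with rfl | hne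
  · rw [Set.image_empty, convexHull_empty]; rintro ⟨x, hx⟩; exact hx.elim
  · exact (exposed_iff hV T hne).2 (face_hm_iff.1 hT)

theorem face_of_exposed {V : ι → E} {F : Set E}
    (hF : IsExposed ℝ (convexHull ℝ (Set.range V)) F) :
    Face (hm V) {i | V i ∈ F} ∧ convexHull ℝ (V '' {i | V i ∈ F}) = F := by
  rcases F.eq_empty_or_nonempty with rfl | hne
  · refine ⟨?_, by simp⟩
    rw [face_hm_iff]
    refine ⟨0, 1, fun i hi => ?_, fun i _ => ?_⟩
    · exact (Set.notMem_empty _ hi).elim
    · simp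
  · obtain ⟨l, hl⟩ := hF hne
    have hcne : Nonempty ι := by
      obtain ⟨x, hx⟩ := hne
      rw [hl] at hx
      by_contra hcon
      rw [not_nonempty_iff] at hcon
      have := hx.1
      rw [Set.range_eq_empty, convexHull_empty] at this
      exact this
    obtain ⟨i0, -, hi0⟩ := Finset.exists_max_image (univ : Finset ι) (fun i => l (V i)) univ_nonempty
    have hle : ∀ i, (l : E →ₗ[ℝ] ℝ) (V i) ≤ l (V i0) := fun i => hi0 i (mem_univ i)
    obtain ⟨h1, h2⟩ := face_eq V (l : E →ₗ[ℝ] ℝ) (l (V i0)) hle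
    have hFe : F = {y ∈ convexHull ℝ (Set.range V) | (l : E →ₗ[ℝ] ℝ) y = l (V i0)} := by
      rw [hl]
      ext y
      constructor
      · rintro ⟨hy, hy'⟩
        exact ⟨hy, le_antisymm (h2 y hy) (hy' _ (subset_convexHull ℝ _ ⟨i0, rfl⟩))⟩
      · rintro ⟨hy, hy'⟩
        refine ⟨hy, fun z hz => ?_⟩
        have h3 := h2 z hz
        have h4 : l y = l (V i0) := hy'
        rw [h4]
        exact h3
    have hT : {i | V i ∈ F} = {i | (l : E →ₗ[ℝ] ℝ) (V i) = l (V i0)} := by
      ext i
      constructor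
      · intro hi
        have h3 : V i ∈ F := hi
        rw [hFe] at h3
        exact h3.2
      · intro hi
        show V i ∈ F
        rw [hFe]
        exact ⟨subset_convexHull ℝ _ ⟨i, rfl⟩, hi⟩
    rw [hT]
    refine ⟨?_, by rw [← h1, ← hFe]⟩
    rw [face_hm_iff]
    refine ⟨(l : E →ₗ[ℝ] ℝ), l (V i0), fun i hi => hi, fun i hi => lt_of_le_of_ne (hle i) hi⟩

/-- faces of the polytope and faces of the cone -/
noncomputable def iso {V : ι → E} (hV : Conf V) :
    FS (convexHull ℝ (Set.range V)) ≃o FL (hm V) where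
  toFun F := ⟨{i | V i ∈ F.1}, (face_of_exposed F.2).1⟩
  invFun T := ⟨convexHull ℝ (V '' T.1), exposed_of_face hV T.2⟩
  left_inv F := Subtype.ext (face_of_exposed F.2).2
  right_inv T := by
    apply Subtype.ext
    apply Set.Subset.antisymm
    · intro i hi; exact mem_hull_face T.2 hi
    · intro i hi; exact subset_convexHull ℝ _ ⟨i, hi, rfl⟩
  map_rel_iff' := by
    intro F G
    constructor
    · intro h
      show F.1 ⊆ G.1
      rw [← (face_of_exposed F.2).2, ← (face_of_exposed G.2).2]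
      exact convexHull_mono (Set.image_mono h)
    · intro h i hi
      exact h hi

/-- the rank of a face -/
noncomputable def rank (F : Set E) : ℕ := if F = ∅ then 0 else finrank ℝ (vectorSpan ℝ F) + 1

theorem vectorSpan_hull (X : Set E) : vectorSpan ℝ (convexHull ℝ X) = vectorSpan ℝ X := by
  rw [← direction_affineSpan, affineSpan_convexHull, direction_affineSpan]

omit [Fintype ι] in
theorem rk_hm {V : ι → E} {T : Set ι} (hT : T.Nonempty) :
    rk (hm V) T = finrank ℝ (vectorSpan ℝ (V '' T)) + 1 := by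
  obtain ⟨i0, hi0⟩ := hT
  set X := V '' T with hX
  have hv0 : V i0 ∈ X := Set.mem_image_of_mem V hi0
  let Φ : (vectorSpan ℝ X) × ℝ →ₗ[ℝ] E × ℝ :=
    ((vectorSpan ℝ X).subtype.comp (LinearMap.fst ℝ _ ℝ) +
      (LinearMap.snd ℝ (vectorSpan ℝ X) ℝ).smulRight (V i0)).prod (LinearMap.snd ℝ _ ℝ)
  have hΦ : ∀ u t, Φ (u, t) = ((u : E) + t • V i0, t) := fun u t => rfl
  have hinj : Function.Injective Φ := by
    rw [← LinearMap.ker_eq_bot, LinearMap.ker_eq_bot']
    rintro ⟨u, t⟩ h
    rw [hΦ, Prod.mk_eq_zero] at h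
    obtain ⟨h1, h2⟩ := h
    subst h2
    rw [zero_smul, add_zero] at h1
    rw [Prod.mk_eq_zero]
    exact ⟨Subtype.ext h1, rfl⟩
  have hrange : LinearMap.range Φ = Submodule.span ℝ (hm V '' T) := by
    apply le_antisymm
    · rintro _ ⟨⟨u, t⟩, rfl⟩
      rw [hΦ]
      have h1 : (((u : E) + t • V i0, t) : E × ℝ) = ((u : E), (0 : ℝ)) + t • hm V i0 := by
        simp [hm]
      rw [h1]
      refine Submodule.add_mem _ ?_ (Submodule.smul_mem _ _
        (Submodule.subset_span (Set.mem_image_of_mem _ hi0)))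
      have h2 : vectorSpan ℝ X ≤ (Submodule.span ℝ (hm V '' T)).comap (LinearMap.inl ℝ E ℝ) := by
        rw [vectorSpan_eq_span_vsub_set_right ℝ hv0, Submodule.span_le]
        rintro _ ⟨_, ⟨i, hi, rfl⟩, rfl⟩
        show ((V i - V i0, (0 : ℝ)) : E × ℝ) ∈ Submodule.span ℝ (hm V '' T)
        have h3 : ((V i - V i0, (0 : ℝ)) : E × ℝ) = hm V i - hm V i0 := by simp [hm]
        rw [h3]
        exact Submodule.sub_mem _ (Submodule.subset_span (Set.mem_image_of_mem _ hi))
          (Submodule.subset_span (Set.mem_image_of_mem _ hi0))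
      exact h2 u.2
    · rw [Submodule.span_le]
      rintro _ ⟨i, hi, rfl⟩
      refine ⟨(⟨V i - V i0, vsub_mem_vectorSpan ℝ (Set.mem_image_of_mem V hi) hv0⟩, 1), ?_⟩
      rw [hΦ]
      simp [hm]
  have h3 := LinearMap.finrank_range_of_inj hinj
  rw [hrange, Module.finrank_prod, Module.finrank_self] at h3
  exact h3

theorem frk_iso {V : ι → E} (hV : Conf V) (F : FS (convexHull ℝ (Set.range V))) :
    frk (hm V) (iso hV F) = rank F.1 := by
  have hF := (face_of_exposed F.2).2
  unfold rank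
  by_cases h : F.1 = ∅
  · rw [if_pos h]
    have : (iso hV F).1 = ∅ := by
      show {i | V i ∈ F.1} = ∅
      rw [h]; rfl
    unfold frk
    rw [this]
    simp [rk]
  · rw [if_neg h]
    have hne : {i | V i ∈ F.1}.Nonempty := by
      rw [Set.nonempty_iff_ne_empty]
      intro h'
      rw [h', Set.image_empty, convexHull_empty] at hF
      exact h hF.symm
    show rk (hm V) {i | V i ∈ F.1} = _
    rw [rk_hm hne]
    conv_rhs => rw [← hF, vectorSpan_hull]

end Pool.Agent.Q223.EU
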